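import Pool.Agent.Work.MP_02d86d_gt.NDim.StepN
import Pool.Agent.Work.MP_02d86d_gt.B.Mono
import Pool.Agent.Work.MP_02d86d_gt.Dih.Contr

/-! A body with a hyperplane of symmetry is followed by the symmetrals of its copies. -/

set_option autoImplicit false

namespace MP_02d86d_gt

open MeasureTheory Set Filter Topology Metric

variable {n : ℕ}

private theorem tri_n (A B D : Set (EuclideanSpace ℝ (Fin n))) :
    volume (symmDiff A D) ≤ volume (symmDiff A B) + volume (symmDiff B D) :=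
  (measure_mono (symmDiff_triangle A B D)).trans (measure_union_le _ _)

private theorem sub_image_n {M : Set (EuclideanSpace ℝ (Fin n))} {R : ℝ}
    (hR : M ⊆ closedBall 0 R)
    (A : EuclideanSpace ℝ (Fin n) ≃ₗᵢ[ℝ] EuclideanSpace ℝ (Fin n)) :
    A '' M ⊆ closedBall 0 R := by
  rintro _ ⟨x, hx, rfl⟩
  have := hR hx
  rw [mem_closedBall_zero_iff] at this ⊢
  rwa [A.norm_map]

private theorem convex_image_n {M : Set (EuclideanSpace ℝ (Fin n))} (hc : Convex ℝ M)
    (A : EuclideanSpace ℝ (Fin n) ≃ₗᵢ[ℝ] EuclideanSpace ℝ (Fin n)) :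
    Convex ℝ (A '' M) := hc.linear_image A.toLinearEquiv.toLinearMap

private theorem interior_image_n {M : Set (EuclideanSpace ℝ (Fin n))}
    (h0 : (0 : EuclideanSpace ℝ (Fin n)) ∈ interior M)
    (A : EuclideanSpace ℝ (Fin n) ≃ₗᵢ[ℝ] EuclideanSpace ℝ (Fin n)) :
    (0 : EuclideanSpace ℝ (Fin n)) ∈ interior (A '' M) := by
  have h1 : A.toHomeomorph '' interior M = interior (A.toHomeomorph '' M) :=
    A.toHomeomorph.image_interior M
  have h2 : A.toHomeomorph '' M = A '' M := rfl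
  rw [h2] at h1
  rw [← h1]
  exact ⟨0, h0, A.map_zero⟩

private theorem rho_image_n {M : Set (EuclideanSpace ℝ (Fin n))} {v : EuclideanSpace ℝ (Fin n)}
    (hv : ‖v‖ = 1) (h : rho v '' M = M)
    (A : EuclideanSpace ℝ (Fin n) ≃ₗᵢ[ℝ] EuclideanSpace ℝ (Fin n)) :
    rho (A v) '' (A '' M) = A '' M := by
  have hAv : ‖A v‖ = 1 := by rw [A.norm_map, hv]
  have h1 : ∀ x, rho (A v) (A x) = A (rho v x) := by
    intro x
    rw [rho_apply hAv, rho_apply hv, A.inner_map_map, A.map_sub, A.map_smul]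
  calc rho (A v) '' (A '' M) = A '' (rho v '' M) := by
        rw [image_image, image_image]
        simp only [h1]
    _ = A '' M := by rw [h]

theorem follow_n {u : ℕ → EuclideanSpace ℝ (Fin n)} (hu : ∀ i, ‖u i‖ = 1)
    (hs : Summable fun i => 1 - (inner ℝ (u i) (u (i + 1))) ^ 2)
    {M : Set (EuclideanSpace ℝ (Fin n))} (hM : IsCompact M) (hc : Convex ℝ M)
    (h0 : (0 : EuclideanSpace ℝ (Fin n)) ∈ interior M) {C : ℝ} (hC : 0 ≤ C) (h : Semi C M)
    {v : EuclideanSpace ℝ (Fin n)} (hv : ‖v‖ = 1) (hD : rho v '' M = M) {R : ℝ}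
    (hR : M ⊆ closedBall 0 R) {e : ENNReal} (he : 0 < e) :
    ∃ j₀ : ℕ, ∀ j, j₀ ≤ j → ∃ (K : ℕ → Set (EuclideanSpace ℝ (Fin n)))
      (A : ℕ → (EuclideanSpace ℝ (Fin n) ≃ₗᵢ[ℝ] EuclideanSpace ℝ (Fin n))),
      Iter R (fun i => u (j + i)) K ∧
      ∀ i, volume (symmDiff (K i) (A i '' M)) ≤ e := by
  set g : ℕ → ℝ := fun i => 1 - (inner ℝ (u i) (u (i + 1))) ^ 2 with hg
  have hin : ∀ a b : EuclideanSpace ℝ (Fin n), ‖a‖ = 1 → ‖b‖ = 1 →
      0 ≤ 1 - (inner ℝ a b : ℝ) ^ 2 := by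
    intro a b ha hb
    have h1 := abs_real_inner_le_norm a b
    rw [ha, hb, one_mul] at h1
    have h2 : (inner ℝ a b : ℝ) ^ 2 ≤ 1 := by
      rw [← sq_abs]
      nlinarith [abs_nonneg (inner ℝ a b : ℝ)]
    linarith
  have hg0 : ∀ i, 0 ≤ g i := fun i => hin _ _ (hu _) (hu _)
  have hv0 : volume M ≠ 0 := (Measure.measure_pos_of_nonempty_interior volume ⟨0, h0⟩).ne'
  have hvt : volume M ≠ ⊤ := hM.measure_lt_top.ne
  set D : ℝ := (1 + 4 * C) ^ n * (8 * n * C) with hDdef
  have hD0 : 0 ≤ D := by positivity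
  have t1 : Tendsto (fun j => ∑' i, g (i + j)) atTop (𝓝 0) := tendsto_sum_nat_add g
  have t2 : Tendsto (fun j => ENNReal.ofReal (D * ∑' i, g (i + j)) * volume M) atTop (𝓝 0) := by
    have t3 : Tendsto (fun j => D * ∑' i, g (i + j)) atTop (𝓝 (D * 0)) := t1.const_mul D
    have t4 := ENNReal.tendsto_ofReal t3
    rw [mul_zero, ENNReal.ofReal_zero] at t4
    have t5 := ENNReal.Tendsto.mul_const (b := volume M) t4 (Or.inr hvt)
    rwa [zero_mul] at t5
  have t6 := t2.eventually_lt_const he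
  obtain ⟨j₀, hj₀⟩ := eventually_atTop.1 t6
  refine ⟨j₀, fun j hj => ?_⟩
  have hsm := (hj₀ j hj).le
  -- the directions
  set w : ℕ → EuclideanSpace ℝ (Fin n) := fun i => u (j + (i - 1)) with hw
  have hw0 : w 0 = u j := by simp [hw]
  have hws : ∀ i, w (i + 1) = u (j + i) := by intro i; simp [hw]
  have hwn : ∀ i, ‖w i‖ = 1 := fun i => hu _
  -- the first isometry
  obtain ⟨A₀, hA₀⟩ : ∃ A : EuclideanSpace ℝ (Fin n) ≃ₗᵢ[ℝ] EuclideanSpace ℝ (Fin n),
      rho (w 0) '' (A '' M) = A '' M := by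
    refine ⟨(ℝ ∙ (v - u j))ᗮ.reflection, ?_⟩
    have h1 : (ℝ ∙ (v - u j))ᗮ.reflection v = u j :=
      Submodule.reflection_sub (by rw [hv, hu])
    have h2 := rho_image_n hv hD (ℝ ∙ (v - u j))ᗮ.reflection
    rw [h1] at h2
    rw [hw0]
    exact h2
  -- one step
  have hstep : ∀ (i : ℕ) (A : EuclideanSpace ℝ (Fin n) ≃ₗᵢ[ℝ] EuclideanSpace ℝ (Fin n)),
      rho (w i) '' (A '' M) = A '' M →
      ∃ A' : EuclideanSpace ℝ (Fin n) ≃ₗᵢ[ℝ] EuclideanSpace ℝ (Fin n),
        rho (w (i + 1)) '' (A' '' M) = A' '' M ∧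
        volume (symmDiff (st (w (i + 1)) (A '' M)) (A' '' M)) ≤
          ENNReal.ofReal (D * (1 - (inner ℝ (w i) (w (i + 1))) ^ 2)) * volume M := by
    intro i A hA
    obtain ⟨B, hB1, hB2⟩ := st_bisect (hM.image A.continuous) (convex_image_n hc A)
      (interior_image_n h0 A) hC (h.image A) (hwn i) (hwn (i + 1)) hA
    refine ⟨A.trans B, ?_, ?_⟩
    · have e1 : (A.trans B) '' M = B '' (A '' M) := by
        rw [image_image]
        rfl
      rw [e1]
      exact hB1
    · have e1 : (A.trans B) '' M = B '' (A '' M) := by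
        rw [image_image]
        rfl
      rw [e1]
      rw [volume_isom] at hB2
      exact hB2
  choose! F hF using hstep
  let A : ℕ → (EuclideanSpace ℝ (Fin n) ≃ₗᵢ[ℝ] EuclideanSpace ℝ (Fin n)) := fun i =>
    Nat.rec A₀ (fun i B => F i B) i
  have hAs : ∀ i, A (i + 1) = F i (A i) := fun i => rfl
  have hsym : ∀ i, rho (w i) '' (A i '' M) = A i '' M := by
    intro i
    induction i with
    | zero => exact hA₀
    | succ i ih =>
      rw [hAs i]
      exact (hF i (A i) ih).1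
  have hI : Iter R (fun i => u (j + i)) (seqSt (fun i => u (j + i)) (A 0 '' M)) :=
    iter_seqSt (fun i => hu _) (hM.image (A 0).continuous) (convex_image_n hc _)
      (sub_image_n hR _) (by rwa [volume_isom])
  refine ⟨seqSt (fun i => u (j + i)) (A 0 '' M), A, hI, ?_⟩
  set f : ℕ → ℝ := fun i => 1 - (inner ℝ (w i) (w (i + 1))) ^ 2 with hf
  have hf0' : ∀ i, 0 ≤ f i := fun i => hin _ _ (hwn _) (hwn _)
  have hmain : ∀ i, volume (symmDiff (seqSt (fun i => u (j + i)) (A 0 '' M) i) (A i '' M)) ≤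
      ENNReal.ofReal (D * ∑ q ∈ Finset.range i, f q) * volume M := by
    intro i
    induction i with
    | zero =>
      have e1 : seqSt (fun i => u (j + i)) (A 0 '' M) 0 = A 0 '' M := rfl
      rw [e1, symmDiff_self]
      simp
    | succ i ih =>
      have e1 : seqSt (fun i => u (j + i)) (A 0 '' M) (i + 1) =
        st (u (j + i)) (seqSt (fun i => u (j + i)) (A 0 '' M) i) := rfl
      rw [e1]
      refine (tri_n _ (st (u (j + i)) (A i '' M)) _).trans ?_
      have h1 := symmDiff_st_le (hu (j + i)) (hI.cpt i) (hI.cvx i)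
        (hM.image (A i).continuous) (convex_image_n hc _)
      have h3 := (hF i (A i) (hsym i)).2
      rw [← hAs i, hws i] at h3
      refine (add_le_add (h1.trans ih) h3).trans ?_
      rw [Finset.sum_range_succ, mul_add, ENNReal.ofReal_add, add_mul (ENNReal.ofReal _)]
      · refine add_le_add le_rfl (le_of_eq ?_)
        simp only [hf, hws i]
      · exact mul_nonneg hD0 (Finset.sum_nonneg fun q _ => hf0' q)
      · exact mul_nonneg hD0 (hf0' i)
  intro i
  refine (hmain i).trans (le_trans ?_ hsm)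
  gcongr
  have hgs : Summable fun i => g (i + j) := (summable_nat_add_iff j).2 hs
  have hfs : ∀ q, f (q + 1) = g (q + j) := by
    intro q
    simp only [hf, hg, hws]
    have e1 : j + (q + 1) = q + j + 1 := by ring
    have e2 : j + q = q + j := by ring
    rw [e1, e2]
  have hf0 : f 0 = 0 := by
    have e1 : f 0 = 1 - (inner ℝ (u j) (u j)) ^ 2 := by
      simp only [hf]
      rw [hws 0]
      simp
    rw [e1, real_inner_self_eq_norm_sq, hu]
    norm_num
  cases i with
  | zero =>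
    simp only [Finset.range_zero, Finset.sum_empty]
    exact tsum_nonneg fun q => hg0 _
  | succ m =>
    rw [Finset.sum_range_succ', hf0, add_zero]
    simp only [hfs]
    exact hgs.sum_le_tsum _ fun q _ => hg0 _

end MP_02d86d_gt
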