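import Pool.Agent.Work.MP_02d86d_gt.Main

/-! A convex body with a hyperplane of symmetry through the origin can be moved along the
hyperplane so that the origin is an interior point. -/

set_option autoImplicit false

namespace MP_02d86d_gt

open MeasureTheory Set Filter Topology Metric

variable {n : ℕ}

theorem recenter_n {L : Set (EuclideanSpace ℝ (Fin n))} (hc : Convex ℝ L)
    (hi : (interior L).Nonempty) {v : EuclideanSpace ℝ (Fin n)} (hv : ‖v‖ = 1)
    (h : rho v '' L = L) :
    ∃ c : EuclideanSpace ℝ (Fin n),
      (0 : EuclideanSpace ℝ (Fin n)) ∈ interior ((fun x => x - c) '' L) ∧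
        rho v '' ((fun x => x - c) '' L) = (fun x => x - c) '' L := by
  obtain ⟨x, hx⟩ := hi
  have hx' : rho v x ∈ interior L := by
    have h1 : rho v '' interior L = interior (rho v '' L) :=
      (rho v).toHomeomorph.image_interior L
    rw [h] at h1
    rw [← h1]
    exact mem_image_of_mem _ hx
  set c : EuclideanSpace ℝ (Fin n) := (1 / 2 : ℝ) • x + (1 / 2 : ℝ) • rho v x with hcdef
  have h3 : c ∈ interior L :=
    hc.interior hx hx' (by norm_num) (by norm_num) (by norm_num)
  have h4 : rho v c = c := by
    rw [hcdef, map_add, map_smul, map_smul, rho_rho, add_comm]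
  refine ⟨c, ?_, ?_⟩
  · have h7 : (fun x => x - c) '' interior L = interior ((fun x => x - c) '' L) :=
      (Homeomorph.subRight c).image_interior L
    rw [← h7]
    exact ⟨c, h3, by simp⟩
  · rw [← image_comp]
    have h1 : (rho v ∘ fun x => x - c) = (fun x => x - c) ∘ rho v := by
      funext x
      simp [map_sub, h4]
    rw [h1, image_comp, h]

/-- the image of a set with a hyperplane of symmetry -/
theorem refl_image {L : Set (EuclideanSpace ℝ (Fin n))} {v : EuclideanSpace ℝ (Fin n)}
    (hv : ‖v‖ = 1) (h : rho v '' L = L)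
    (A : EuclideanSpace ℝ (Fin n) ≃ₗᵢ[ℝ] EuclideanSpace ℝ (Fin n)) :
    ‖A v‖ = 1 ∧ rho (A v) '' (A '' L) = A '' L := by
  have hA : ‖A v‖ = 1 := by rw [A.norm_map, hv]
  refine ⟨hA, ?_⟩
  rw [← image_comp]
  have h1 : (rho (A v) ∘ A) = A ∘ rho v := by
    funext x
    rw [Function.comp_apply, Function.comp_apply, rho_apply hA, rho_apply hv, A.inner_map_map,
      map_sub, map_smul]
  rw [h1, image_comp, h]

end MP_02d86d_gt
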