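import Pool.Agent.Work.MP_02d86d_gt.Main

/-! Limits of sets with a hyperplane of symmetry. -/

set_option autoImplicit false

namespace MP_02d86d_gt

open MeasureTheory Set Filter Topology Metric

variable {n : ℕ}

theorem refl_of_limit_n {K : ℕ → Set (EuclideanSpace ℝ (Fin n))}
    {L : Set (EuclideanSpace ℝ (Fin n))} (hK : ∀ i, (K i).Nonempty) (hL : L.Nonempty)
    (cK : ∀ i, IsCompact (K i)) (cL : IsCompact L)
    (h : Tendsto (fun i => hausdorffDist (K i) L) atTop (𝓝 0))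
    {u : ℕ → EuclideanSpace ℝ (Fin n)} (hu : ∀ i, ‖u i‖ = 1)
    (hs : ∀ i, rho (u i) '' K i = K i) :
    ∃ v : EuclideanSpace ℝ (Fin n), ‖v‖ = 1 ∧ rho v '' L = L := by
  obtain ⟨v, hv, φ, hφ, hlim⟩ := (isCompact_sphere (0 : EuclideanSpace ℝ (Fin n)) 1).tendsto_subseq
    (x := u) fun i => by rw [mem_sphere_zero_iff_norm]; exact hu i
  rw [mem_sphere_zero_iff_norm] at hv
  have h' : Tendsto (fun i => hausdorffDist (K (φ i)) L) atTop (𝓝 0) := h.comp hφ.tendsto_atTop
  have key : ∀ x ∈ L, rho v x ∈ L := by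
    intro x hx
    obtain ⟨y, hy, hyx⟩ := hd_exists (fun i => hK (φ i)) hL (fun i => (cK (φ i)).isBounded)
      cL.isBounded h' hx
    refine hd_mem (fun i => hK (φ i)) hL (fun i => (cK (φ i)).isBounded)
      cL.isBounded cL.isClosed h' (y := fun i => rho (u (φ i)) (y i)) (fun i => ?_) ?_
    · rw [← hs (φ i)]
      exact mem_image_of_mem _ (hy i)
    · simp only [rho_apply (hu _), rho_apply hv]
      exact hyx.sub (((tendsto_const_nhds.mul (hyx.inner hlim))).smul hlim)
  refine ⟨v, hv, Subset.antisymm ?_ fun x hx => ⟨rho v x, key x hx, rho_rho v x⟩⟩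
  rintro _ ⟨x, hx, rfl⟩
  exact key x hx

end MP_02d86d_gt
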