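import Pool.Agent.Work.MP_02d86d_gt.Main

/-! A second-order condition for bodies in `ℝ^n`. -/

set_option autoImplicit false

namespace MP_02d86d_gt

open MeasureTheory Set Filter Topology Metric

variable {n : ℕ}

/-- The condition of second order: for a small isometry `A`, the mean of the images of two points
under `A` and its inverse is almost in `M`. -/
def Semi (C : ℝ) (M : Set (EuclideanSpace ℝ (Fin n))) : Prop :=
  ∀ (A : EuclideanSpace ℝ (Fin n) ≃ₗᵢ[ℝ] EuclideanSpace ℝ (Fin n)) (h : ℝ), 0 ≤ h →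
    (∀ w, ‖(1 / 2 : ℝ) • (A w + A.symm w) - w‖ ≤ h * ‖w‖) →
    ∀ x ∈ M, ∀ y ∈ M, ∃ z ∈ M, (1 / 2 : ℝ) • (A.symm x + A y) = (1 + C * h) • z

theorem Semi.image {C : ℝ} {M : Set (EuclideanSpace ℝ (Fin n))} (hM : Semi C M)
    (B : EuclideanSpace ℝ (Fin n) ≃ₗᵢ[ℝ] EuclideanSpace ℝ (Fin n)) : Semi C (B '' M) := by
  rintro A h hh hw _ ⟨x, hx, rfl⟩ _ ⟨y, hy, rfl⟩
  obtain ⟨z, hz, he⟩ := hM ((B.trans A).trans B.symm) h hh (fun w => by
    have h1 := hw (B w)
    rw [B.norm_map] at h1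
    rw [← B.norm_map]
    simpa using h1) x hx y hy
  refine ⟨B z, mem_image_of_mem _ hz, ?_⟩
  have h2 := congrArg B he
  simpa using h2

end MP_02d86d_gt
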