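import Pool.Agent.Work.MP_02d86d_gt.NDim.Semi
import Pool.Agent.Work.MP_02d86d_gt.B.Mono

/-! Approximation of a body in `ℝ^n` from inside by bodies with a semiconcave support function. -/

set_option autoImplicit false

namespace MP_02d86d_gt

open MeasureTheory Set Filter Topology Metric

variable {n : ℕ}

/-- The support function. -/
noncomputable def hsn (L : Set (EuclideanSpace ℝ (Fin n))) (w : EuclideanSpace ℝ (Fin n)) : ℝ :=
  sSup ((fun y : EuclideanSpace ℝ (Fin n) => inner ℝ y w) '' L)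

section
variable {L : Set (EuclideanSpace ℝ (Fin n))} (hL : IsCompact L)
include hL

theorem inner_le_hsn {y : EuclideanSpace ℝ (Fin n)} (hy : y ∈ L)
    (w : EuclideanSpace ℝ (Fin n)) : inner ℝ y w ≤ hsn L w :=
  le_csSup (hL.image (by fun_prop)).bddAbove ⟨y, hy, rfl⟩

theorem exists_hsn (hne : L.Nonempty) (w : EuclideanSpace ℝ (Fin n)) :
    ∃ y ∈ L, inner ℝ y w = hsn L w :=
  (hL.image (f := fun y : EuclideanSpace ℝ (Fin n) => inner ℝ y w)
    (by fun_prop)).sSup_mem (hne.image _)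

theorem hsn_lip (hne : L.Nonempty) {R : ℝ} (hR : ∀ y ∈ L, ‖y‖ ≤ R)
    (w w' : EuclideanSpace ℝ (Fin n)) : hsn L w ≤ hsn L w' + R * ‖w - w'‖ := by
  obtain ⟨y, hy, h⟩ := exists_hsn hL hne w
  rw [← h]
  have h1 : inner ℝ y w = inner ℝ y w' + inner ℝ y (w - w') := by
    rw [inner_sub_right]
    ring
  have h2 : inner ℝ y (w - w') ≤ R * ‖w - w'‖ :=
    (real_inner_le_norm _ _).trans (mul_le_mul_of_nonneg_right (hR y hy) (norm_nonneg _))
  have h4 := inner_le_hsn hL hy w'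
  linarith

theorem mem_of_hsn (hc : Convex ℝ L) (hne : L.Nonempty) {x : EuclideanSpace ℝ (Fin n)}
    (h : ∀ w, ‖w‖ = 1 → inner ℝ x w ≤ hsn L w) : x ∈ L := by
  by_contra hx
  obtain ⟨v, hv, hv'⟩ := exists_norm_eq_iInf_of_complete_convex hne hL.isComplete hc x
  rw [norm_eq_iInf_iff_real_inner_le_zero hc hv] at hv'
  have h0 : 0 < ‖x - v‖ := norm_pos_iff.2 (sub_ne_zero.2 fun e => hx (e ▸ hv))
  set w : EuclideanSpace ℝ (Fin n) := ‖x - v‖⁻¹ • (x - v) with hw
  have hw1 : ‖w‖ = 1 := by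
    rw [hw, norm_smul, norm_inv, norm_norm, inv_mul_cancel₀ h0.ne']
  obtain ⟨y, hy, hyf⟩ := exists_hsn hL hne w
  have h1 := hv' y hy
  have h2 : inner ℝ (y - v) w ≤ 0 := by
    rw [hw, real_inner_smul_right, real_inner_comm]
    exact mul_nonpos_of_nonneg_of_nonpos (inv_nonneg.2 h0.le) h1
  have h3 := h w hw1
  have h4 : inner ℝ (x - v) w = ‖x - v‖ := by
    rw [hw, real_inner_smul_right, real_inner_self_eq_norm_sq]
    field_simp
  rw [inner_sub_left] at h2 h4
  linarith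

end

/-- The body with semiconcave support function. -/
def smbn (L : Set (EuclideanSpace ℝ (Fin n))) (C : ℝ) : Set (EuclideanSpace ℝ (Fin n)) :=
  {x | ∀ w w' : EuclideanSpace ℝ (Fin n), ‖w‖ = 1 → ‖w'‖ = 1 →
    inner ℝ x w ≤ hsn L w' + C * ‖w - w'‖ ^ 2}

theorem isClosed_smbn (L : Set (EuclideanSpace ℝ (Fin n))) (C : ℝ) : IsClosed (smbn L C) := by
  have h : smbn L C = ⋂ (w : EuclideanSpace ℝ (Fin n)) (w' : EuclideanSpace ℝ (Fin n))
      (_ : ‖w‖ = 1) (_ : ‖w'‖ = 1), {x : EuclideanSpace ℝ (Fin n) |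
      inner ℝ x w ≤ hsn L w' + C * ‖w - w'‖ ^ 2} := by
    ext x
    simp [smbn]
  rw [h]
  exact isClosed_iInter fun w => isClosed_iInter fun w' => isClosed_iInter fun _ =>
    isClosed_iInter fun _ => isClosed_le (by fun_prop) continuous_const

theorem convex_smbn (L : Set (EuclideanSpace ℝ (Fin n))) (C : ℝ) : Convex ℝ (smbn L C) := by
  intro x hx y hy a b ha hb hab w w' hw hw'
  rw [inner_add_left, real_inner_smul_left, real_inner_smul_left]
  have h1 := mul_le_mul_of_nonneg_left (hx w w' hw hw') ha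
  have h2 := mul_le_mul_of_nonneg_left (hy w w' hw hw') hb
  have h3 : a * (hsn L w' + C * ‖w - w'‖ ^ 2) + b * (hsn L w' + C * ‖w - w'‖ ^ 2) =
      hsn L w' + C * ‖w - w'‖ ^ 2 := by
    rw [← add_mul, hab, one_mul]
  linarith

theorem smbn_subset {L : Set (EuclideanSpace ℝ (Fin n))} (hL : IsCompact L) (hc : Convex ℝ L)
    (hne : L.Nonempty) (C : ℝ) : smbn L C ⊆ L := by
  intro x hx
  refine mem_of_hsn hL hc hne fun w hw => ?_
  have h := hx w w hw hw
  simpa using h

theorem inner_lie (A : EuclideanSpace ℝ (Fin n) ≃ₗᵢ[ℝ] EuclideanSpace ℝ (Fin n))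
    (x w : EuclideanSpace ℝ (Fin n)) : inner ℝ (A x) w = inner ℝ x (A.symm w) := by
  rw [← A.inner_map_map x (A.symm w), A.apply_symm_apply]

theorem hsn_lie {L : Set (EuclideanSpace ℝ (Fin n))}
    {A : EuclideanSpace ℝ (Fin n) ≃ₗᵢ[ℝ] EuclideanSpace ℝ (Fin n)} (h : A '' L = L)
    (w : EuclideanSpace ℝ (Fin n)) : hsn L (A.symm w) = hsn L w := by
  unfold hsn
  conv_rhs => rw [← h, image_image]
  congr 1
  refine image_congr fun y _ => ?_
  rw [inner_lie]

theorem smbn_lie {L : Set (EuclideanSpace ℝ (Fin n))}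
    {A : EuclideanSpace ℝ (Fin n) ≃ₗᵢ[ℝ] EuclideanSpace ℝ (Fin n)} (h : A '' L = L) (C : ℝ) :
    A '' smbn L C = smbn L C := by
  apply Subset.antisymm
  · rintro _ ⟨x, hx, rfl⟩ w w' hw hw'
    rw [inner_lie]
    have h1 := hx (A.symm w) (A.symm w') (by rw [A.symm.norm_map, hw])
      (by rw [A.symm.norm_map, hw'])
    rwa [hsn_lie h, ← map_sub, A.symm.norm_map] at h1
  · intro x hx
    refine ⟨A.symm x, fun w w' hw hw' => ?_, A.apply_symm_apply x⟩
    rw [inner_lie, A.symm_symm]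
    have h1 := hx (A w) (A w') (by rw [A.norm_map, hw]) (by rw [A.norm_map, hw'])
    rwa [← hsn_lie h, A.symm_apply_apply, ← map_sub, A.norm_map] at h1

/-- Approximation from inside by a body with a semiconcave support function. -/
theorem smooth_body_n (_hn : 1 ≤ n) {L : Set (EuclideanSpace ℝ (Fin n))} (hL : IsCompact L)
    (hc : Convex ℝ L) (h0 : (0 : EuclideanSpace ℝ (Fin n)) ∈ interior L) {ε : ℝ} (hε : 0 < ε)
    (hε1 : ε < 1) :
    ∃ (M : Set (EuclideanSpace ℝ (Fin n))) (C : ℝ), IsCompact M ∧ Convex ℝ M ∧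
      (0 : EuclideanSpace ℝ (Fin n)) ∈ interior M ∧ 0 ≤ C ∧
      (∀ A : EuclideanSpace ℝ (Fin n) ≃ₗᵢ[ℝ] EuclideanSpace ℝ (Fin n), A '' L = L → A '' M = M) ∧
      Semi C M ∧ M ⊆ L ∧ ∀ x ∈ L, (1 - ε) • x ∈ M := by
  have hne : L.Nonempty := ⟨0, interior_subset h0⟩
  obtain ⟨r, hr, hrL⟩ := (nhds_basis_closedBall.mem_iff).1 (mem_interior_iff_mem_nhds.1 h0)
  obtain ⟨R, hR0⟩ := hL.isBounded.subset_closedBall 0
  have hR : ∀ y ∈ L, ‖y‖ ≤ R := fun y hy => mem_closedBall_zero_iff.1 (hR0 hy)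
  have hRn : 0 ≤ R := (norm_nonneg _).trans (hR 0 (interior_subset h0))
  have hsr : ∀ w, ‖w‖ = 1 → r ≤ hsn L w := by
    intro w hw
    have h1 : r • w ∈ L := by
      apply hrL
      rw [mem_closedBall_zero_iff, norm_smul, hw, mul_one, Real.norm_eq_abs, abs_of_pos hr]
    have h2 := inner_le_hsn hL h1 w
    rw [real_inner_smul_left, real_inner_self_eq_norm_sq, hw] at h2
    linarith
  set D : ℝ := R ^ 2 / (ε * r) with hD
  have hεr : 0 < ε * r := mul_pos hε hr
  have hD0 : 0 ≤ D := by positivity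
  have hpos : ∀ (w : EuclideanSpace ℝ (Fin n)) (a : ℝ), ‖w‖ = 1 →
      r ≤ hsn L w + D * a ^ 2 := by
    intro w a hw
    have h1 := hsr w hw
    have h2 : 0 ≤ D * a ^ 2 := by positivity
    linarith
  have hkey : ∀ a : ℝ, R * a ≤ D * a ^ 2 + ε * r := by
    intro a
    have h1 : D * a ^ 2 + ε * r - R * a =
        ((R * a) ^ 2 + (ε * r) ^ 2 - (R * a) * (ε * r)) / (ε * r) := by
      rw [hD]
      field_simp
    have h2 : 0 ≤ (R * a) ^ 2 + (ε * r) ^ 2 - (R * a) * (ε * r) := by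
      nlinarith [sq_nonneg (R * a - ε * r), sq_nonneg (R * a + ε * r)]
    have h3 := div_nonneg h2 hεr.le
    linarith
  have hsub : ball (0 : EuclideanSpace ℝ (Fin n)) r ⊆ smbn L D := by
    intro x hx w w' hw hw'
    rw [mem_ball_zero_iff] at hx
    have h1 := real_inner_le_norm x w
    rw [hw, mul_one] at h1
    linarith [hpos w' ‖w - w'‖ hw']
  refine ⟨smbn L D, 2 * D / r, hL.of_isClosed_subset (isClosed_smbn L D)
    (smbn_subset hL hc hne D), convex_smbn L D, ?_, by positivity,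
    fun A h => smbn_lie h D, ?_, smbn_subset hL hc hne D, ?_⟩
  · exact interior_maximal hsub isOpen_ball (mem_ball_self hr)
  · intro A d hd hA x hx y hy
    have hCd : 0 < 1 + 2 * D / r * d := by positivity
    refine ⟨(1 + 2 * D / r * d)⁻¹ • (1 / 2 : ℝ) • (A.symm x + A y), fun w w' hw hw' => ?_, ?_⟩
    · rw [real_inner_smul_left, real_inner_smul_left, inner_add_left, inner_lie, inner_lie,
        A.symm_symm, inv_mul_le_iff₀ hCd]
      have h1 := hx (A w) w' (by rw [A.norm_map, hw]) hw'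
      have h2 := hy (A.symm w) w' (by rw [A.symm.norm_map, hw]) hw'
      have e1 : ‖A w - w'‖ ^ 2 = 2 - 2 * inner ℝ (A w) w' := by
        rw [norm_sub_sq_real, A.norm_map, hw, hw']
        ring
      have e2 : ‖A.symm w - w'‖ ^ 2 = 2 - 2 * inner ℝ (A.symm w) w' := by
        rw [norm_sub_sq_real, A.symm.norm_map, hw, hw']
        ring
      have e3 : ‖w - w'‖ ^ 2 = 2 - 2 * inner ℝ w w' := by
        rw [norm_sub_sq_real, hw, hw']
        ring
      have h3 := hA w
      rw [hw, mul_one] at h3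
      have h4 : -d ≤ inner ℝ ((1 / 2 : ℝ) • (A w + A.symm w) - w) w' := by
        have h5 := abs_real_inner_le_norm ((1 / 2 : ℝ) • (A w + A.symm w) - w) w'
        rw [hw', mul_one] at h5
        have h6 := neg_le_of_abs_le (h5.trans h3)
        exact h6
      rw [inner_sub_left, real_inner_smul_left, inner_add_left] at h4
      have h5 : D * ‖A w - w'‖ ^ 2 + D * ‖A.symm w - w'‖ ^ 2 ≤
          2 * (D * ‖w - w'‖ ^ 2) + 4 * (D * d) := by
        rw [e1, e2, e3]
        have h6 := mul_le_mul_of_nonneg_left h4 hD0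
        nlinarith
      have h7 : 2 * (D * d) ≤ 2 * D / r * d * (hsn L w' + D * ‖w - w'‖ ^ 2) := by
        have h8 := mul_le_mul_of_nonneg_left (hpos w' ‖w - w'‖ hw')
          (by positivity : 0 ≤ 2 * D / r * d)
        have h9 : 2 * D / r * d * r = 2 * (D * d) := by field_simp
        linarith
      rw [add_mul, one_mul]
      linarith
    · rw [smul_inv_smul₀ hCd.ne']
  · intro x hx w w' hw hw'
    rw [real_inner_smul_left]
    have h1 := inner_le_hsn hL hx w
    have h2 := hsn_lip hL hne hR w w'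
    have h3 := hkey ‖w - w'‖
    have h4 := hsr w hw
    have h5 : (1 - ε) * inner ℝ x w ≤ (1 - ε) * hsn L w :=
      mul_le_mul_of_nonneg_left h1 (by linarith)
    nlinarith

end MP_02d86d_gt
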