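import Pool.Agent.Work.MP_02d86d_gt.NDim.Semi
import Pool.Agent.Work.MP_02d86d_gt.Dih.Step

/-! One symmetrization step for a body in `ℝ^n` which is symmetric up to a small rotation. -/

set_option autoImplicit false

namespace MP_02d86d_gt

open MeasureTheory Set Filter Topology Metric

variable {n : ℕ}

private theorem rho_neg' {u : EuclideanSpace ℝ (Fin n)} (hu : ‖u‖ = 1) : rho (-u) = rho u := by
  ext1 x
  rw [rho_apply hu, rho_apply (by rw [norm_neg]; exact hu), inner_neg_right]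
  rw [smul_neg, sub_neg_eq_add, mul_neg, neg_smul, sub_eq_add_neg]

private theorem rho_symm' (u x : EuclideanSpace ℝ (Fin n)) : (rho u).symm x = rho u x := by
  rw [LinearIsometryEquiv.symm_apply_eq, rho_rho]

private theorem comb_norm (a b : EuclideanSpace ℝ (Fin n)) (s t : ℝ) :
    ‖s • a + t • b‖ ^ 2 = s ^ 2 * ‖a‖ ^ 2 + 2 * (s * t * inner ℝ a b) + t ^ 2 * ‖b‖ ^ 2 := by
  rw [norm_add_sq_real, norm_smul, norm_smul, inner_smul_left, inner_smul_right, mul_pow, mul_pow,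
    Real.norm_eq_abs, Real.norm_eq_abs, sq_abs, sq_abs]
  simp
  ring

/-- The mean of a product of two reflections and its inverse. -/
private theorem mean_bound {b v : EuclideanSpace ℝ (Fin n)} (hb : ‖b‖ = 1) (hv : ‖v‖ = 1)
    (w : EuclideanSpace ℝ (Fin n)) :
    ‖(1 / 2 : ℝ) • (rho v (rho b w) + rho b (rho v w)) - w‖ ≤
      2 * (1 - (inner ℝ b v) ^ 2) * ‖w‖ := by
  set c : ℝ := inner ℝ b v with hc
  set p : ℝ := inner ℝ w b with hp
  set q : ℝ := inner ℝ w v with hq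
  have hcv : inner ℝ v b = c := by rw [hc, real_inner_comm]
  have e : (1 / 2 : ℝ) • (rho v (rho b w) + rho b (rho v w)) - w =
      (-(2 * (p - c * q))) • b + (-(2 * (q - c * p))) • v := by
    rw [rho_apply hv, rho_apply hb, rho_apply hb, rho_apply hv]
    rw [inner_sub_left, inner_sub_left, inner_smul_left, inner_smul_left, ← hp, ← hq, ← hc, hcv]
    simp only [conj_trivial]
    module
  have hc1 : c ^ 2 ≤ 1 := by
    have h := abs_real_inner_le_norm b v
    rw [hb, hv, mul_one, ← hc] at h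
    rw [← sq_abs]
    exact pow_le_one₀ (abs_nonneg _) h
  have h1 : ‖(-(2 * (p - c * q))) • b + (-(2 * (q - c * p))) • v‖ ^ 2 =
      4 * (1 - c ^ 2) * (p ^ 2 + q ^ 2 - 2 * c * p * q) := by
    rw [comb_norm, hb, hv, ← hc]
    ring
  have h2 : 0 ≤ ‖(1 - c ^ 2) • w + (-1 : ℝ) • ((p - c * q) • b + (q - c * p) • v)‖ ^ 2 := by
    positivity
  rw [comb_norm, comb_norm, hb, hv, inner_add_right, inner_smul_right, inner_smul_right, ← hp,
    ← hq, ← hc] at h2
  have h3 : (1 - c ^ 2) * (p ^ 2 + q ^ 2 - 2 * c * p * q) ≤ (1 - c ^ 2) ^ 2 * ‖w‖ ^ 2 := by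
    nlinarith
  rw [e]
  refine le_of_sq_le_sq ?_ (by
    have := norm_nonneg w
    have : 0 ≤ 1 - c ^ 2 := by linarith
    positivity)
  rw [h1]
  calc 4 * (1 - c ^ 2) * (p ^ 2 + q ^ 2 - 2 * c * p * q)
      = 4 * ((1 - c ^ 2) * (p ^ 2 + q ^ 2 - 2 * c * p * q)) := by ring
    _ ≤ 4 * ((1 - c ^ 2) ^ 2 * ‖w‖ ^ 2) := by linarith
    _ = (2 * (1 - c ^ 2) * ‖w‖) ^ 2 := by ring

private theorem pow_sub_one_le (m : ℕ) {l : ℝ} (hl : 1 ≤ l) : l ^ m - 1 ≤ m * (l - 1) * l ^ m := by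
  induction m with
  | zero => simp
  | succ m ih =>
    have h1 : 1 ≤ l ^ (m + 1) := one_le_pow₀ hl
    have h2 : l * (l ^ m - 1) ≤ l * (m * (l - 1) * l ^ m) :=
      mul_le_mul_of_nonneg_left ih (by linarith)
    have h3 : (l - 1) * 1 ≤ (l - 1) * l ^ (m + 1) :=
      mul_le_mul_of_nonneg_left h1 (by linarith)
    have h4 : l ^ (m + 1) - 1 = l * (l ^ m - 1) + (l - 1) := by ring
    have h5 : ((m + 1 : ℕ) : ℝ) * (l - 1) * l ^ (m + 1) =
        l * (m * (l - 1) * l ^ m) + (l - 1) * l ^ (m + 1) := by push_cast; ring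
    rw [h4, h5]
    linarith

/-- The volume of a shell. -/
private theorem volume_shell_n {M A : Set (EuclideanSpace ℝ (Fin n))} (hM : IsCompact M)
    (hA : IsCompact A) {l : ℝ} (hl : 1 ≤ l) (hv : volume A = volume M)
    (hs : A ⊆ (fun z => l • z) '' M) :
    volume ((fun z : EuclideanSpace ℝ (Fin n) => l • z) '' M \ A) =
      ENNReal.ofReal (l ^ n - 1) * volume M := by
  have hMf : volume M ≠ ⊤ := hM.measure_lt_top.ne
  have hln : 1 ≤ l ^ n := one_le_pow₀ hl
  have h1 : volume ((fun z : EuclideanSpace ℝ (Fin n) => l • z) '' M) =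
      ENNReal.ofReal (l ^ n) * volume M := by
    have h := Measure.addHaar_smul (volume : Measure (EuclideanSpace ℝ (Fin n))) l M
    rw [finrank_euclideanSpace_fin, abs_of_nonneg (by positivity)] at h
    exact h
  rw [measure_sdiff hs hA.measurableSet.nullMeasurableSet (by rw [hv]; exact hMf), h1, hv]
  have h2 : ENNReal.ofReal (l ^ n) = ENNReal.ofReal (l ^ n - 1) + 1 := by
    rw [← ENNReal.ofReal_one, ← ENNReal.ofReal_add (by linarith) zero_le_one]
    congr 1
    ring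
  rw [h2, add_mul, one_mul, ENNReal.add_sub_cancel_right hMf]

private theorem st_bisect_aux {M : Set (EuclideanSpace ℝ (Fin n))} (hM : IsCompact M)
    (hc : Convex ℝ M) (h0 : (0 : EuclideanSpace ℝ (Fin n)) ∈ interior M) {C : ℝ} (hC : 0 ≤ C)
    (h : Semi C M) {u u' : EuclideanSpace ℝ (Fin n)} (hu : ‖u‖ = 1) (hu' : ‖u'‖ = 1)
    (hs : rho u '' M = M) (hc0 : 0 ≤ inner ℝ u u') :
    ∃ A : EuclideanSpace ℝ (Fin n) ≃ₗᵢ[ℝ] EuclideanSpace ℝ (Fin n),
      rho u' '' (A '' M) = A '' M ∧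
      volume (symmDiff (st u' M) (A '' M)) ≤
        ENNReal.ofReal (((1 + 4 * C) ^ n * (8 * n * C)) * (1 - (inner ℝ u u') ^ 2)) *
          volume M := by
  set k : ℝ := inner ℝ u u' with hk
  have hk1 : k ≤ 1 := by
    have h := real_inner_le_norm u u'
    rwa [hu, hu', mul_one] at h
  -- the bisector
  have hsum : ‖u + u'‖ ^ 2 = 2 + 2 * k := by
    rw [norm_add_sq_real, hu, hu', ← hk]
    ring
  have hpos : 0 < ‖u + u'‖ := by
    by_contra hneg
    have h1 : ‖u + u'‖ = 0 := le_antisymm (not_lt.1 hneg) (norm_nonneg _)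
    rw [h1] at hsum
    nlinarith
  set b : EuclideanSpace ℝ (Fin n) := (‖u + u'‖⁻¹) • (u + u') with hb
  have hbn : ‖b‖ = 1 := by
    rw [hb, norm_smul, norm_inv, norm_norm, inv_mul_cancel₀ hpos.ne']
  have hub : inner ℝ u b = ‖u + u'‖⁻¹ * (1 + k) := by
    rw [hb, inner_smul_right, inner_add_right, real_inner_self_eq_norm_sq, hu, ← hk]
    ring
  have hbu' : inner ℝ b u' = ‖u + u'‖⁻¹ * (1 + k) := by
    rw [hb, inner_smul_left, inner_add_left, real_inner_self_eq_norm_sq, hu', ← hk]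
    simp only [conj_trivial]
    ring
  have hinv : ‖u + u'‖⁻¹ ^ 2 * (2 + 2 * k) = 1 := by
    rw [← hsum, inv_pow, inv_mul_cancel₀ (by positivity)]
  have hrb : rho b u = -u' := by
    rw [rho_apply hbn, hub, hb, smul_smul]
    have h1 : 2 * (‖u + u'‖⁻¹ * (1 + k)) * ‖u + u'‖⁻¹ = 1 := by
      linear_combination hinv
    rw [h1, one_smul]
    abel
  have hconj : ∀ x, rho u' (rho b x) = rho b (rho u x) := by
    intro x
    rw [rho_apply hu (x := x), map_sub, map_smul, hrb, rho_apply hu']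
    have h1 : inner ℝ (rho b x) u' = -inner ℝ x u := by
      have h2 : inner ℝ (rho b x) (rho b u) = inner ℝ x u := LinearIsometryEquiv.inner_map_map _ _ _
      rw [hrb, inner_neg_right] at h2
      linarith
    rw [h1]
    module
  set N : Set (EuclideanSpace ℝ (Fin n)) := rho b '' M with hN
  have hNs : rho u' '' N = N := by
    rw [hN, image_image]
    have h1 : (fun x => rho u' (rho b x)) = fun x => rho b (rho u x) := funext hconj
    rw [h1, ← image_image (rho b) (rho u), hs]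
  have hNc : IsCompact N := hM.image (rho b).continuous
  have hNv : volume N = volume M := by
    have h1 := (rho b).measurePreserving.measure_preimage_emb
      (rho b).toHomeomorph.measurableEmbedding (rho b '' M)
    rw [preimage_image_eq M (rho b).injective] at h1
    exact h1.symm
  have hNx : Convex ℝ N := hc.linear_image (rho b).toLinearEquiv.toLinearMap
  have hN0 : (0 : EuclideanSpace ℝ (Fin n)) ∈ N := ⟨0, interior_subset h0, map_zero _⟩
  -- the rotation
  set R : EuclideanSpace ℝ (Fin n) ≃ₗᵢ[ℝ] EuclideanSpace ℝ (Fin n) :=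
    (rho b).trans (rho u') with hR
  have hRa : ∀ x, R x = rho u' (rho b x) := fun x => rfl
  have hRs : ∀ x, R.symm x = rho b (rho u' x) := by
    intro x
    rw [LinearIsometryEquiv.symm_apply_eq, hRa, rho_rho, rho_rho]
  have hh0 : 0 ≤ 1 - k ^ 2 := by nlinarith
  have hmean : ∀ w, ‖(1 / 2 : ℝ) • (R w + R.symm w) - w‖ ≤ (1 - k ^ 2) * ‖w‖ := by
    intro w
    rw [hRa, hRs]
    refine (mean_bound hbn hu' w).trans ?_
    refine mul_le_mul_of_nonneg_right ?_ (norm_nonneg _)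
    rw [hbu', mul_pow]
    have h1 : ‖u + u'‖⁻¹ ^ 2 * (1 + k) ^ 2 = (1 + k) / 2 := by
      have : ‖u + u'‖⁻¹ ^ 2 * (1 + k) ^ 2 = (‖u + u'‖⁻¹ ^ 2 * (2 + 2 * k)) * ((1 + k) / 2) := by
        ring
      rw [this, hinv, one_mul]
    rw [h1]
    nlinarith
  have hsemi := (h.image (rho b)) R (1 - k ^ 2) hh0 hmean
  set l : ℝ := 1 + C * (1 - k ^ 2) with hl
  have hl1 : 1 ≤ l := by
    have : 0 ≤ C * (1 - k ^ 2) := mul_nonneg hC hh0
    linarith
  set A := st u' M with hA
  have hAc : IsCompact A := isCompact_st hu' hM hc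
  have hAv : volume A = volume N := by
    rw [hA, volume_st hu' hM hc, hNv]
  have hAs : A ⊆ (fun z => l • z) '' N := by
    intro x hx
    obtain ⟨p, hp, q, hq, rfl⟩ := st_half hu' hM hc hx
    have h1 : rho u' (rho b p) ∈ N := by
      rw [← hNs]
      exact ⟨rho b p, ⟨p, hp, rfl⟩, rfl⟩
    obtain ⟨z, hz, e⟩ := hsemi _ h1 _ ⟨q, hq, rfl⟩
    refine ⟨z, hz, ?_⟩
    rw [hRa, hRs, rho_rho, rho_rho, rho_rho] at e
    exact e.symm
  have hNN : N ⊆ (fun z => l • z) '' N := by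
    intro x hx
    refine ⟨l⁻¹ • x, ?_, ?_⟩
    · have h1 := hNx hN0 hx (sub_nonneg.2 (inv_le_one_of_one_le₀ hl1))
        (inv_nonneg.2 (by linarith : (0 : ℝ) ≤ l)) (by ring)
      rwa [smul_zero, zero_add] at h1
    · simp only
      rw [smul_smul, mul_inv_cancel₀ (by linarith : l ≠ 0), one_smul]
  have h1 := volume_shell_n hNc hAc hl1 hAv hAs
  have h2 := volume_shell_n hNc hNc hl1 rfl hNN
  refine ⟨rho b, hNs, ?_⟩
  have h3 : volume (symmDiff A N) ≤ ENNReal.ofReal (l ^ n - 1) * volume N +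
      ENNReal.ofReal (l ^ n - 1) * volume N := by
    rw [symmDiff_def]
    refine (measure_union_le _ _).trans (add_le_add ?_ ?_)
    · rw [← h2]
      exact measure_mono (sdiff_subset_sdiff_left hAs)
    · rw [← h1]
      exact measure_mono (sdiff_subset_sdiff_left hNN)
  have hln : 1 ≤ l ^ n := one_le_pow₀ hl1
  refine h3.trans ?_
  rw [← add_mul, ← ENNReal.ofReal_add (by linarith) (by linarith), hNv]
  gcongr
  have h4 := pow_sub_one_le n hl1
  have h5 : l ^ n ≤ (1 + 4 * C) ^ n := by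
    refine pow_le_pow_left₀ (by linarith) ?_ n
    rw [hl]
    nlinarith [sq_nonneg k]
  have h6 : (n : ℝ) * (l - 1) * l ^ n ≤ (n : ℝ) * (l - 1) * (1 + 4 * C) ^ n := by
    refine mul_le_mul_of_nonneg_left h5 ?_
    have : (0 : ℝ) ≤ n := Nat.cast_nonneg n
    have : 0 ≤ l - 1 := by linarith
    positivity
  have h7 : (n : ℝ) * (l - 1) * (1 + 4 * C) ^ n =
      (1 + 4 * C) ^ n * (n * C) * (1 - k ^ 2) := by rw [hl]; ring
  have h8 : 0 ≤ (1 + 4 * C) ^ n * (n * C) * (1 - k ^ 2) := by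
    have : (0 : ℝ) ≤ n := Nat.cast_nonneg n
    positivity
  have h9 : (1 + 4 * C) ^ n * (8 * n * C) * (1 - k ^ 2) =
      8 * ((1 + 4 * C) ^ n * (n * C) * (1 - k ^ 2)) := by ring
  rw [h9]
  linarith

/-- One step. -/
theorem st_bisect {M : Set (EuclideanSpace ℝ (Fin n))} (hM : IsCompact M) (hc : Convex ℝ M)
    (h0 : (0 : EuclideanSpace ℝ (Fin n)) ∈ interior M) {C : ℝ} (hC : 0 ≤ C) (h : Semi C M)
    {u u' : EuclideanSpace ℝ (Fin n)} (hu : ‖u‖ = 1) (hu' : ‖u'‖ = 1)
    (hs : rho u '' M = M) :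
    ∃ A : EuclideanSpace ℝ (Fin n) ≃ₗᵢ[ℝ] EuclideanSpace ℝ (Fin n),
      rho u' '' (A '' M) = A '' M ∧
      volume (symmDiff (st u' M) (A '' M)) ≤
        ENNReal.ofReal (((1 + 4 * C) ^ n * (8 * n * C)) * (1 - (inner ℝ u u') ^ 2)) *
          volume M := by
  rcases le_total 0 (inner ℝ u u') with h1 | h1
  · exact st_bisect_aux hM hc h0 hC h hu hu' hs h1
  · have h2 := st_bisect_aux hM hc h0 hC h (u := -u) (by rw [norm_neg]; exact hu) hu'
      (by rw [rho_neg' hu]; exact hs) (by rw [inner_neg_left]; linarith)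
    rw [inner_neg_left, neg_sq] at h2
    exact h2

end MP_02d86d_gt
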